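import Pool.Agent.R453.CI.Cube
import Pool.Agent.R453.CI.Lim

/-!
# Completely independent spanning trees of the hypercube: `lim f(n) / n` exists

`f n` is the largest number of completely independent spanning trees of the hypercube `Q_n`.
-/

set_option autoImplicit false

namespace Pool.Agent.Results.MP_1433c5_co.LimitExists

open Filter Topology SimpleGraph

/-- The hypercube `Q_n`: two vertices are adjacent iff they differ in exactly one coordinate. -/
def hypercube (n : ℕ) : SimpleGraph (Fin n → Bool) where
  Adj x y := ∃ i, x i ≠ y i ∧ ∀ j, j ≠ i → x j = y j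
  symm := ⟨by
    rintro x y ⟨t, h1, h2⟩
    exact ⟨t, h1.symm, fun t' ht => (h2 t' ht).symm⟩⟩
  loopless := ⟨by
    rintro x ⟨t, h1, -⟩
    exact h1 rfl⟩

/-- `T 0, …, T (k - 1)` are completely independent spanning trees of `G`: each `T i` is a tree on the vertex set of
`G` contained in `G`, and for all `i ≠ j` and all vertices `u ≠ v` the paths from `u` to `v` in `T i` and in `T j`
have no common edge and no common internal vertex. -/
def CompletelyIndependent {V : Type} (G : SimpleGraph V) {k : ℕ} (T : Fin k → SimpleGraph V) : Prop :=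
  (∀ i, T i ≤ G ∧ (T i).IsTree) ∧
  ∀ i j, i ≠ j → ∀ u v, u ≠ v → ∀ (p : (T i).Walk u v) (q : (T j).Walk u v), p.IsPath → q.IsPath →
    (∀ e ∈ p.edges, e ∉ q.edges) ∧ (∀ w ∈ p.support, w ∈ q.support → w = u ∨ w = v)

/-- The largest `k` such that `Q_n` contains `k` completely independent spanning trees. -/
noncomputable def f (n : ℕ) : ℕ :=
  sSup {k | ∃ T : Fin k → SimpleGraph (Fin n → Bool), CompletelyIndependent (hypercube n) T}

theorem result : ∃ L : ℝ, Tendsto (fun n : ℕ => (f n : ℝ) / n) atTop (𝓝 L) := by
  have h : f = Pool.Agent.R453.CI.f := rfl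
  rw [h]
  exact Pool.Agent.R453.CI.lim_exists _ (fun n hn => Pool.Agent.R453.CI.f_mono hn)
    (fun n hn => Pool.Agent.R453.CI.f_le hn)
    (fun m ℓ s e hm hℓ hs hk he => Pool.Agent.R453.CI.f_prod hm hℓ hs hk he)

end Pool.Agent.Results.MP_1433c5_co.LimitExists
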